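import Pool.Agent.Y986.GL.Many

/-!
# `2 ^ (2 ^ ℵ₀)` points with trivial Gleason part in no Shilov boundary of a nontrivial part

The definitions are those of `Pool.Agent.Results.MP_264cca_an.TrivialPart`: `Hinf` is the algebra
of bounded analytic functions on the open unit disc, `MaxSpace` its maximal ideal space with the
Gelfand topology, `rho` the pseudohyperbolic distance, `part x` the Gleason part of `x`, and
`shilov P` the Shilov boundary of the algebra of restrictions of `Hinf` to `P`.

The points are limits of point evaluations along ultrafilters on a lattice; bounded analytic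
functions that are nearly constant on sparse ranges of scales show that there are as many of them
as there are nonprincipal ultrafilters on the natural numbers.
-/

set_option autoImplicit false

open Cardinal

namespace Pool.Agent.Results.MP_264cca_an.ManyExceptions

open Pool.Agent.Results.MP_264cca_an.TrivialPart

/-- `m` is a counterexample to the conjecture of the first question: its Gleason part is trivial,
and it lies in the Shilov boundary of no nontrivial Gleason part. -/
def Exceptional (m : MaxSpace) : Prop :=
  part m = {m} ∧ ∀ x : MaxSpace, part x ≠ {x} → m ∉ shilov (part x)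

/-- The set of all points with trivial Gleason part which lie in the Shilov boundary `∂ P` of no
nontrivial Gleason part `P` has `2 ^ (2 ^ ℵ₀)` elements, as many as the whole maximal ideal space
of `H^∞`. -/
theorem result :
    Cardinal.mk {m : MaxSpace | Exceptional m} = 2 ^ (2 ^ ℵ₀ : Cardinal.{0}) ∧
      Cardinal.mk MaxSpace = 2 ^ (2 ^ ℵ₀ : Cardinal.{0}) := by
  have hU := Pool.Agent.W154.GL.ULCH.main
  have h1 : #Pool.Agent.Y986.GL.NP ≤ #{m : MaxSpace | Exceptional m} :=
    Cardinal.mk_le_of_injective
      (f := fun q => (⟨Pool.Agent.Y986.GL.Many.point hU q,
        Pool.Agent.Y986.GL.Many.point_far hU q⟩ : {m : MaxSpace | Exceptional m}))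
      (fun q q' h => Pool.Agent.Y986.GL.Many.point_inj hU (congrArg Subtype.val h))
  have h2 := Pool.Agent.Y986.GL.card_NP.trans h1
  have h3 : #{m : MaxSpace | Exceptional m} ≤ #MaxSpace := Cardinal.mk_set_le _
  have h4 := Pool.Agent.Y986.GL.Many.card_MaxSpace_le
  exact ⟨le_antisymm (h3.trans h4) h2, le_antisymm h4 (h2.trans h3)⟩

end Pool.Agent.Results.MP_264cca_an.ManyExceptions
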