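import Pool.Agent.Y986.GL.Asm2
import Pool.Agent.Y986.GL.Flow2
import Pool.Agent.Results.MP_264cca_an.NotUnique

/-!
# One point with trivial Gleason part in the Shilov boundaries of `2 ^ (2 ^ ℵ₀)` nontrivial parts

The definitions are those of `Pool.Agent.Results.MP_264cca_an.TrivialPart`: `Hinf` is the algebra
of bounded analytic functions on the open unit disc, `MaxSpace` its maximal ideal space with the
Gelfand topology, `rho` the pseudohyperbolic distance, `part x` the Gleason part of `x`, and
`shilov P` the Shilov boundary of the algebra of restrictions of `Hinf` to `P`.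

There is a point `m` with trivial Gleason part which lies in the Shilov boundaries of
`2 ^ (2 ^ ℵ₀)` different nontrivial parts, the largest possible number (the cardinality of the
maximal ideal space); these parts have the same closure and the same Shilov boundary. They come
from points in different orbits of a minimal closed translation invariant set of ultrafilters on
the integers.
-/

set_option autoImplicit false

open Metric Set Filter Topology Cardinal

namespace Pool.Agent.Results.MP_264cca_an.ManyParts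

open Pool.Agent.Results.MP_264cca_an.TrivialPart

/-- `P` is a nontrivial Gleason part: the Gleason part of some point `x`, and not only `{x}`. -/
def IsNontrivialPart (P : Set MaxSpace) : Prop := ∃ x : MaxSpace, P = part x ∧ P ≠ {x}

theorem card_Hinf : #Hinf ≤ 𝔠 := by
  have hne : Nonempty (ball (0 : ℂ) 1) := ⟨⟨0, by simp⟩⟩
  have hcont : ∀ f : Hinf, Continuous (f : ball (0 : ℂ) 1 → ℂ) := by
    intro f
    obtain ⟨⟨F, hF, hfF⟩, -⟩ := f.2
    have h1 : (f : ball (0 : ℂ) 1 → ℂ) = (ball (0 : ℂ) 1).domRestrict F := by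
      funext z
      exact hfF z
    rw [h1]
    exact continuousOn_iff_continuous_domRestrict.1 hF.continuousOn
  have hinj : Function.Injective fun (f : Hinf) (n : ℕ) =>
      (f : ball (0 : ℂ) 1 → ℂ) (TopologicalSpace.denseSeq (ball (0 : ℂ) 1) n) := by
    intro f g h
    apply Subtype.ext
    refine DenseRange.equalizer (TopologicalSpace.denseRange_denseSeq (ball (0 : ℂ) 1))
      (hcont f) (hcont g) ?_
    funext n
    exact congrFun h n
  have h1 := Cardinal.mk_le_of_injective hinj
  have h2 : #(ℕ → ℂ) = 𝔠 := by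
    rw [← Cardinal.power_def, Cardinal.mk_complex, Cardinal.mk_nat,
      Cardinal.continuum_power_aleph0]
  rwa [h2] at h1

theorem card_MaxSpace_le : #MaxSpace ≤ 2 ^ (2 ^ ℵ₀ : Cardinal.{0}) := by
  have h1 : #MaxSpace ≤ #(Hinf → ℂ) :=
    Cardinal.mk_le_of_injective (f := fun (m : MaxSpace) (f : Hinf) => m f)
      (fun a b h => AlgHom.ext fun f => congrFun h f)
  refine h1.trans ?_
  rw [← Cardinal.power_def, Cardinal.mk_complex]
  refine (Cardinal.power_le_power_left Cardinal.continuum_ne_zero card_Hinf).trans ?_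
  rw [Cardinal.power_self_eq Cardinal.aleph0_le_continuum, Cardinal.two_power_aleph0]

/-- **The part `P` with `m ∈ ∂ P` is as far from unique as possible.** There is a point `m` of the
maximal ideal space of `H^∞` whose Gleason part is trivial and a set `Fam` of nontrivial Gleason parts
`P` with `m ∈ ∂ P`, which all have the same closure and the same Shilov boundary `∂ P`, such that
`Fam` has `2 ^ (2 ^ ℵ₀)` elements, as many as the whole maximal ideal space. -/
theorem result :
    ∃ m : MaxSpace, part m = {m} ∧ ∃ Fam : Set (Set MaxSpace),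
      (∀ P ∈ Fam, IsNontrivialPart P ∧ m ∈ shilov P) ∧
      (∀ P ∈ Fam, ∀ Q ∈ Fam, closure P = closure Q ∧ shilov P = shilov Q) ∧
      Cardinal.mk Fam = 2 ^ (2 ^ ℵ₀ : Cardinal.{0}) ∧
      Cardinal.mk MaxSpace = 2 ^ (2 ^ ℵ₀ : Cardinal.{0}) := by
  have hU := Pool.Agent.W154.GL.ULCH.main
  have hA := Pool.Agent.W303.GL.AN.main
  have hSP := Pool.Agent.W376.GL.SP.main
  have hG := Pool.Agent.W138.GL.G0.main
  have hSM := Pool.Agent.W237.GL.SEPM.main
  have hS := Pool.Agent.W451.GL.SEP.main hU hSM
  have hDiv := Pool.Agent.W196.GL.DIV.main hG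
  have hI := Pool.Agent.W356.GL.IF.main
  have hInt := Pool.Agent.W318.GL.INT.main hU hG hDiv hI
  have hP := Pool.Agent.W366.GL.PART.main hU hSP hG hS hInt
  have hT := Pool.Agent.W959.GL.TRIV.main hU Pool.Agent.W612.GL.TP.main
    Pool.Agent.W899.GL.SPLIT.main
  obtain ⟨Φ, hΦ1, hΦ2⟩ := Pool.Agent.Y986.GL.flow2
  have hNP := Pool.Agent.Y986.GL.card_NP
  have hne : Nonempty Pool.Agent.Y986.GL.NP := by
    rw [← Cardinal.mk_ne_zero_iff]
    intro h0
    rw [h0] at hNP
    have h1 := Cardinal.power_ne_zero (a := (2 : Cardinal.{0})) (2 ^ ℵ₀) two_ne_zero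
    exact h1 (le_antisymm hNP (by simp))
  obtain ⟨i₀⟩ := hne
  obtain ⟨m, x, hm, hx1, hx2, hx3, hx4, hx5⟩ := Pool.Agent.Y986.GL.main2 hU hG hP hS
    (Pool.Agent.W509.GL.CL.main hU) (Pool.Agent.W237.GL.UL2.main hU) hT
    (Pool.Agent.W803.GL.DISC.main hU hA) Pool.Agent.W585.GL.ZORN.main i₀ Φ hΦ1 hΦ2
  have hinj : Function.Injective fun i => part (x i) := by
    intro i j h
    by_contra hij
    exact hx2 i j hij h
  have hcard : #(Set.range fun i => part (x i)) = #Pool.Agent.Y986.GL.NP :=
    Cardinal.mk_range_eq _ hinj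
  have h2 : (2 : Cardinal.{0}) ^ (2 ^ ℵ₀ : Cardinal.{0}) ≤ #(Set.range fun i => part (x i)) := by
    rw [hcard]
    exact hNP
  have h3 : #(Set.range fun i => part (x i)) ≤ #MaxSpace := by
    refine (Cardinal.mk_le_mk_of_subset ?_).trans (Cardinal.mk_range_le (f := part))
    rintro _ ⟨i, rfl⟩
    exact ⟨x i, rfl⟩
  refine ⟨m, hm, Set.range fun i => part (x i), ?_, ?_,
    le_antisymm (h3.trans card_MaxSpace_le) h2, le_antisymm card_MaxSpace_le (h2.trans h3)⟩
  · rintro _ ⟨i, rfl⟩
    exact ⟨⟨x i, rfl, hx1 i⟩, hx3 i⟩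
  · rintro _ ⟨i, rfl⟩ _ ⟨j, rfl⟩
    exact ⟨hx4 i j, hx5 i j⟩

end Pool.Agent.Results.MP_264cca_an.ManyParts
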